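import Pool.Agent.W117.GS.Stm
set_option autoImplicit false

open scoped ContDiff

noncomputable section

namespace Pool.Agent.W439.GS.CL

open Pool.Agent.W117.GS

/-! ### stability of `CB` -/

section CBs
variable {V : Type} [NormedAddCommGroup V] [NormedSpace ℝ V]

lemma cb_const (k : ℕ) (c : V) : CB k (fun _ : ℝ × ℝ => c) := by
  refine ⟨contDiff_const, fun i _ => ?_⟩
  rcases Nat.eq_zero_or_pos i with h | h
  · subst h
    exact ⟨‖c‖, fun x => by rw [norm_iteratedFDeriv_zero]⟩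
  · refine ⟨0, fun x => ?_⟩
    rw [iteratedFDeriv_const_of_ne (𝕜 := ℝ) (Nat.pos_iff_ne_zero.1 h) c]
    simp

lemma cb_add {k : ℕ} {f g : ℝ × ℝ → V} (hf : CB k f) (hg : CB k g) :
    CB k (fun x => f x + g x) := by
  refine ⟨hf.1.add hg.1, fun i hi => ?_⟩
  obtain ⟨C1, h1⟩ := hf.2 i hi
  obtain ⟨C2, h2⟩ := hg.2 i hi
  refine ⟨C1 + C2, fun x => ?_⟩
  have hfi : ContDiffAt ℝ i f x := (hf.1.of_le (by exact_mod_cast hi)).contDiffAt
  have hgi : ContDiffAt ℝ i g x := (hg.1.of_le (by exact_mod_cast hi)).contDiffAt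
  have h3 : iteratedFDeriv ℝ i (fun x => f x + g x) x =
      iteratedFDeriv ℝ i f x + iteratedFDeriv ℝ i g x :=
    iteratedFDeriv_add_apply hfi hgi
  rw [h3]
  exact (norm_add_le _ _).trans (add_le_add (h1 x) (h2 x))

lemma cb_smul {k : ℕ} {f : ℝ × ℝ → V} (c : ℝ) (hf : CB k f) : CB k (fun x => c • f x) := by
  refine ⟨contDiff_const.smul hf.1, fun i hi => ?_⟩
  obtain ⟨C1, h1⟩ := hf.2 i hi
  refine ⟨|c| * C1, fun x => ?_⟩
  have hfi : ContDiffAt ℝ i f x := (hf.1.of_le (by exact_mod_cast hi)).contDiffAt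
  have h3 : iteratedFDeriv ℝ i (fun x => c • f x) x = c • iteratedFDeriv ℝ i f x :=
    iteratedFDeriv_const_smul_apply hfi
  rw [h3, norm_smul, Real.norm_eq_abs]
  exact mul_le_mul_of_nonneg_left (h1 x) (abs_nonneg _)

lemma cb_sum {ι : Type} {k : ℕ} (s : Finset ι) (f : ι → ℝ × ℝ → V) (h : ∀ i ∈ s, CB k (f i)) :
    CB k (fun x => ∑ i ∈ s, f i x) := by
  classical
  induction s using Finset.induction_on with
  | empty => simpa using cb_const k (0 : V)
  | insert a s ha ih =>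
    have h1 := cb_add (h a (Finset.mem_insert_self a s))
      (ih fun i hi => h i (Finset.mem_insert_of_mem hi))
    refine (Eq.mp ?_ h1)
    congr 1
    funext x
    rw [Finset.sum_insert ha]

lemma cb_smul_vec {k : ℕ} {f : ℝ × ℝ → ℝ} (v : V) (hf : CB k f) : CB k (fun x => f x • v) := by
  refine ⟨hf.1.smul contDiff_const, fun i hi => ?_⟩
  obtain ⟨C1, h1⟩ := hf.2 i hi
  refine ⟨‖(ContinuousLinearMap.id ℝ ℝ).smulRight v‖ * C1, fun x => ?_⟩
  have hfi : ContDiffAt ℝ i f x := (hf.1.of_le (by exact_mod_cast hi)).contDiffAt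
  have h3 : iteratedFDeriv ℝ i (fun x => f x • v) x =
      ((ContinuousLinearMap.id ℝ ℝ).smulRight v).compContinuousMultilinearMap
        (iteratedFDeriv ℝ i f x) :=
    ((ContinuousLinearMap.id ℝ ℝ).smulRight v).iteratedFDeriv_comp_left hfi le_rfl
  rw [h3]
  exact (ContinuousLinearMap.norm_compContinuousMultilinearMap_le _ _).trans
    (mul_le_mul_of_nonneg_left (h1 x) (norm_nonneg _))

lemma cb_succ {k : ℕ} {f : ℝ × ℝ → V} (hf : ContDiff ℝ (k + 1 : ℕ) f) {C : ℝ}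
    (hb : ∀ x, ‖f x‖ ≤ C) (hd : CB k (fderiv ℝ f)) : CB (k + 1) f := by
  refine ⟨hf, fun i hi => ?_⟩
  rcases i with _ | i
  · exact ⟨C, fun x => by rw [norm_iteratedFDeriv_zero]; exact hb x⟩
  · obtain ⟨C1, h1⟩ := hd.2 i (by omega)
    refine ⟨C1, fun x => ?_⟩
    rw [← norm_iteratedFDeriv_fderiv]
    exact h1 x

end CBs

/-! ### the basic functions -/

section basic
variable (M : ℕ) (p : ℝ × ℝ)

/-- the basic functions -/
def ff (i j : ℕ) (α : ℝ) (z : ℝ × ℝ) : ℝ :=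
  (z.1 - p.1) ^ i * (z.2 - p.2) ^ j * (1 + sp p z ^ M) ^ (-α)

lemma sp_nonneg (z : ℝ × ℝ) : 0 ≤ sp p z := by
  unfold sp; positivity

lemma T_ge (z : ℝ × ℝ) : 1 ≤ 1 + sp p z ^ M := by
  have := pow_nonneg (sp_nonneg p z) M
  linarith

lemma T_pos (z : ℝ × ℝ) : 0 < 1 + sp p z ^ M := lt_of_lt_of_le one_pos (T_ge M p z)

lemma ff_bound (hM : 1 ≤ M) (i j : ℕ) (α : ℝ) (h : (i + j : ℝ) ≤ 2 * M * α) (z : ℝ × ℝ) :
    ‖ff M p i j α z‖ ≤ 1 := by
  have hT := T_ge M p z
  have hT0 := T_pos M p z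
  have hM0 : (0 : ℝ) < M := by exact_mod_cast hM
  set T := 1 + sp p z ^ M with hTd
  set R := T ^ (1 / (2 * (M : ℝ))) with hR
  have hR0 : 0 ≤ R := Real.rpow_nonneg hT0.le _
  have hRM : R ^ (2 * M) = T := by
    rw [hR, ← Real.rpow_natCast, ← Real.rpow_mul hT0.le]
    push_cast
    rw [one_div, inv_mul_cancel₀ (by positivity), Real.rpow_one]
  have key : ∀ x : ℝ, x ^ 2 ≤ sp p z → |x| ≤ R := by
    intro x hx
    rw [← pow_le_pow_iff_left₀ (abs_nonneg x) hR0 (n := 2 * M) (by omega), hRM, pow_mul, sq_abs]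
    have := pow_le_pow_left₀ (sq_nonneg x) hx M
    linarith
  have hx : |z.1 - p.1| ≤ R := key _ (by unfold sp; nlinarith [sq_nonneg (z.2 - p.2)])
  have hy : |z.2 - p.2| ≤ R := key _ (by unfold sp; nlinarith [sq_nonneg (z.1 - p.1)])
  unfold ff
  rw [norm_mul, norm_mul, norm_pow, norm_pow, Real.norm_eq_abs, Real.norm_eq_abs,
    Real.norm_eq_abs, abs_of_nonneg (Real.rpow_nonneg hT0.le _), Real.rpow_neg hT0.le,
    ← div_eq_mul_inv, div_le_one (Real.rpow_pos_of_pos hT0 _)]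
  calc |z.1 - p.1| ^ i * |z.2 - p.2| ^ j ≤ R ^ i * R ^ j :=
        mul_le_mul (pow_le_pow_left₀ (abs_nonneg _) hx i) (pow_le_pow_left₀ (abs_nonneg _) hy j)
          (pow_nonneg (abs_nonneg _) _) (pow_nonneg hR0 _)
    _ = T ^ (((i + j : ℕ) : ℝ) / (2 * M)) := by
        rw [← pow_add, hR, ← Real.rpow_natCast, ← Real.rpow_mul hT0.le]
        congr 1
        ring
    _ ≤ T ^ α := by
        apply Real.rpow_le_rpow_of_exponent_le hT
        rw [div_le_iff₀ (by positivity)]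
        push_cast
        linarith

lemma ff_smooth (i j : ℕ) (α : ℝ) : ContDiff ℝ ∞ (ff M p i j α) := by
  unfold ff
  refine ContDiff.mul (ContDiff.mul ?_ ?_) ?_
  · exact (contDiff_fst.sub contDiff_const).pow i
  · exact (contDiff_snd.sub contDiff_const).pow j
  · refine ContDiff.rpow_const_of_ne ?_ fun z => (T_pos M p z).ne'
    refine contDiff_const.add (ContDiff.pow ?_ M)
    unfold sp
    exact ((contDiff_fst.sub contDiff_const).pow 2).add ((contDiff_snd.sub contDiff_const).pow 2)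

/-- derivative in the first variable -/
def dx (i j : ℕ) (α : ℝ) (z : ℝ × ℝ) : ℝ :=
  (i : ℝ) * ff M p (i - 1) j α z + (-(2 * α * M)) * ∑ l ∈ Finset.range (M - 1 + 1),
    ((M - 1).choose l : ℝ) * ff M p (i + 1 + 2 * l) (j + 2 * (M - 1 - l)) (α + 1) z

/-- derivative in the second variable -/
def dy (i j : ℕ) (α : ℝ) (z : ℝ × ℝ) : ℝ :=
  (j : ℝ) * ff M p i (j - 1) α z + (-(2 * α * M)) * ∑ l ∈ Finset.range (M - 1 + 1),
    ((M - 1).choose l : ℝ) * ff M p (i + 2 * l) (j + 1 + 2 * (M - 1 - l)) (α + 1) z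

lemma sum_x (i j : ℕ) (α : ℝ) (z : ℝ × ℝ) :
    ∑ l ∈ Finset.range (M - 1 + 1),
      ((M - 1).choose l : ℝ) * ff M p (i + 2 * l) (j + 2 * (M - 1 - l)) α z =
    (z.1 - p.1) ^ i * (z.2 - p.2) ^ j * sp p z ^ (M - 1) * (1 + sp p z ^ M) ^ (-α) := by
  unfold ff
  conv_rhs => rw [show sp p z ^ (M - 1) = ((z.1 - p.1) ^ 2 + (z.2 - p.2) ^ 2) ^ (M - 1) from rfl,
    add_pow]
  rw [Finset.mul_sum, Finset.sum_mul]
  refine Finset.sum_congr rfl fun l _ => ?_
  rw [pow_add, pow_add, pow_mul, pow_mul]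
  ring

lemma dx_eq (i j : ℕ) (α : ℝ) (z : ℝ × ℝ) : dx M p i j α z =
    (i : ℝ) * (z.1 - p.1) ^ (i - 1) * (z.2 - p.2) ^ j * (1 + sp p z ^ M) ^ (-α) +
    (z.1 - p.1) ^ i * (z.2 - p.2) ^ j * (-α * (1 + sp p z ^ M) ^ (-α - 1) *
      (M * sp p z ^ (M - 1) * (2 * (z.1 - p.1)))) := by
  unfold dx
  rw [sum_x]
  unfold ff
  rw [show -(α + 1) = -α - 1 by ring, pow_succ]
  ring

lemma dy_eq (i j : ℕ) (α : ℝ) (z : ℝ × ℝ) : dy M p i j α z =
    (j : ℝ) * (z.2 - p.2) ^ (j - 1) * (z.1 - p.1) ^ i * (1 + sp p z ^ M) ^ (-α) +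
    (z.1 - p.1) ^ i * (z.2 - p.2) ^ j * (-α * (1 + sp p z ^ M) ^ (-α - 1) *
      (M * sp p z ^ (M - 1) * (2 * (z.2 - p.2)))) := by
  unfold dy
  rw [sum_x]
  unfold ff
  rw [show -(α + 1) = -α - 1 by ring, pow_succ]
  ring

lemma ff_fderiv (i j : ℕ) (α : ℝ) (z : ℝ × ℝ) : fderiv ℝ (ff M p i j α) z =
    dx M p i j α z • ContinuousLinearMap.fst ℝ ℝ ℝ +
      dy M p i j α z • ContinuousLinearMap.snd ℝ ℝ ℝ := by
  have hx : HasFDerivAt (fun z : ℝ × ℝ => z.1 - p.1) (ContinuousLinearMap.fst ℝ ℝ ℝ) z :=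
    hasFDerivAt_fst.sub_const _
  have hy : HasFDerivAt (fun z : ℝ × ℝ => z.2 - p.2) (ContinuousLinearMap.snd ℝ ℝ ℝ) z :=
    hasFDerivAt_snd.sub_const _
  have hxi := (hasDerivAt_pow i (z.1 - p.1)).comp_hasFDerivAt z hx
  have hyj := (hasDerivAt_pow j (z.2 - p.2)).comp_hasFDerivAt z hy
  have hx2 := (hasDerivAt_pow 2 (z.1 - p.1)).comp_hasFDerivAt z hx
  have hy2 := (hasDerivAt_pow 2 (z.2 - p.2)).comp_hasFDerivAt z hy
  have hs := hx2.add hy2
  have hsM := (hasDerivAt_pow M (sp p z)).comp_hasFDerivAt z hs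
  have hT := hsM.const_add 1
  have hTa := (Real.hasDerivAt_rpow_const (p := -α)
    (Or.inl (T_pos M p z).ne')).comp_hasFDerivAt z hT
  have hall := (hxi.mul hyj).mul hTa
  have h1 := hall.fderiv
  refine Eq.trans ?_ (h1.trans ?_)
  · rfl
  · apply ContinuousLinearMap.ext
    intro v
    rw [dx_eq, dy_eq]
    simp only [add_apply, smul_apply, smul_eq_mul, Pi.mul_apply,
      ContinuousLinearMap.coe_fst', ContinuousLinearMap.coe_snd', Function.comp_apply]
    simp only [Nat.cast_ofNat, Nat.add_one_sub_one, pow_one]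
    ring

end basic

theorem main : PropCL := by
  intro M i j α p hM h k
  have hM0 : (0 : ℝ) < M := by exact_mod_cast hM
  have key : ∀ k : ℕ, ∀ (i j : ℕ) (α : ℝ), (i + j : ℝ) ≤ 2 * M * α → CB k (ff M p i j α) := by
    intro k
    induction k with
    | zero =>
      intro i j α h
      refine ⟨(ff_smooth M p i j α).of_le (by exact_mod_cast le_top), fun l hl => ?_⟩
      obtain rfl : l = 0 := by omega
      exact ⟨1, fun x => by rw [norm_iteratedFDeriv_zero]; exact ff_bound M p hM i j α h x⟩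
    | succ k ih =>
      intro i j α h
      refine cb_succ ((ff_smooth M p i j α).of_le (by exact_mod_cast le_top))
        (ff_bound M p hM i j α h) ?_
      have h1 : fderiv ℝ (ff M p i j α) = fun z =>
          dx M p i j α z • ContinuousLinearMap.fst ℝ ℝ ℝ +
          dy M p i j α z • ContinuousLinearMap.snd ℝ ℝ ℝ := funext (ff_fderiv M p i j α)
      rw [h1]
      have hl : ∀ l ∈ Finset.range (M - 1 + 1), (l : ℝ) + ((M - 1 - l : ℕ) : ℝ) = M - 1 := by
        intro l hl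
        have h2 : l + (M - 1 - l) = M - 1 := by
          have := Finset.mem_range.1 hl
          omega
        have h3 : ((l + (M - 1 - l) : ℕ) : ℝ) = ((M - 1 : ℕ) : ℝ) := by rw [h2]
        rw [Nat.cast_add, Nat.cast_sub hM, Nat.cast_one] at h3
        exact h3
      have hsub : ∀ m : ℕ, ((m - 1 : ℕ) : ℝ) ≤ m := by
        intro m
        exact_mod_cast Nat.sub_le m 1
      refine cb_add (cb_smul_vec _ ?_) (cb_smul_vec _ ?_)
      · unfold dx
        refine cb_add (cb_smul (i : ℝ) (ih (i - 1) j α ?_))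
          (cb_smul (-(2 * α * M)) (cb_sum _ _ fun l hlr =>
            cb_smul ((M - 1).choose l : ℝ) (ih _ _ _ ?_)))
        · have := hsub i
          linarith
        · have := hl l hlr
          push_cast
          nlinarith
      · unfold dy
        refine cb_add (cb_smul (j : ℝ) (ih i (j - 1) α ?_))
          (cb_smul (-(2 * α * M)) (cb_sum _ _ fun l hlr =>
            cb_smul ((M - 1).choose l : ℝ) (ih _ _ _ ?_)))
        · have := hsub j
          linarith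
        · have := hl l hlr
          push_cast
          nlinarith
  exact key k i j α h

end Pool.Agent.W439.GS.CL
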